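import Pool.Agent.Helper89.GW.Stmts

/-! # Module GLEG: graphs of differentials are Legendrian -/

set_option autoImplicit false

open scoped ContDiff Topology
open Set Filter

namespace GW

noncomputable def gleg_pr : E →L[ℝ] ℝ × ℝ :=
  (ContinuousLinearMap.proj (R := ℝ) (φ := fun _ : Fin 4 => ℝ) 0).prod
    (ContinuousLinearMap.proj (R := ℝ) (φ := fun _ : Fin 4 => ℝ) 2)

lemma gleg_pr_apply (q : E) : gleg_pr q = pr q := rfl

lemma gleg_dir (ψ : ℝ × ℝ → ℝ) (hψ : ContDiff ℝ ∞ ψ) (v : ℝ × ℝ) :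
    ContDiff ℝ ∞ (fun z => fderiv ℝ ψ z v) := by
  have h : ContDiff ℝ ∞ (fderiv ℝ ψ) := hψ.fderiv_right (by simp)
  exact h.clm_apply contDiff_const

lemma gleg_symm (ψ : ℝ × ℝ → ℝ) (hψ : ContDiff ℝ ∞ ψ) (z u v : ℝ × ℝ) :
    fderiv ℝ (fun z => fderiv ℝ ψ z v) z u = fderiv ℝ (fun z => fderiv ℝ ψ z u) z v := by
  have h : ContDiff ℝ ∞ (fderiv ℝ ψ) := hψ.fderiv_right (by simp)
  have hd : DifferentiableAt ℝ (fderiv ℝ ψ) z := (h.differentiable (by simp)).differentiableAt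
  have e1 : ∀ w : ℝ × ℝ, fderiv ℝ (fun z => fderiv ℝ ψ z w) z =
      (fderiv ℝ (fderiv ℝ ψ) z).flip w := by
    intro w
    have := (hd.hasFDerivAt.clm_apply (hasFDerivAt_const w z)).fderiv
    rw [this]
    ext <;> simp
  rw [e1, e1]
  have hs : IsSymmSndFDerivAt ℝ ψ z :=
    (hψ.contDiffAt (x := z)).isSymmSndFDerivAt (by
      rw [minSmoothness_of_isRCLikeNormedField]
      exact WithTop.coe_le_coe.2 (le_top : (2 : ℕ∞) ≤ ⊤))
  exact hs u v

lemma gleg_fderiv_comp (f : ℝ × ℝ → ℝ) (hf : ContDiff ℝ ∞ f) (q u : E) :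
    fderiv ℝ (fun q : E => f (pr q)) q u = fderiv ℝ f (pr q) (pr u) := by
  have h1 : HasFDerivAt f (fderiv ℝ f (gleg_pr q)) (gleg_pr q) :=
    ((hf.differentiable (by simp)).differentiableAt).hasFDerivAt
  have h2 : HasFDerivAt (fun q : E => f (pr q)) ((fderiv ℝ f (gleg_pr q)).comp gleg_pr) q :=
    h1.comp q gleg_pr.hasFDerivAt
  rw [h2.fderiv]
  rfl

lemma gleg_coord (i : Fin 4) (f : ℝ × ℝ → ℝ) (hf : ContDiff ℝ ∞ f) (q u : E) :
    fderiv ℝ (fun q : E => q i - f (pr q)) q u = u i - fderiv ℝ f (pr q) (pr u) := by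
  have h1 : HasFDerivAt (fun q : E => q i)
      (ContinuousLinearMap.proj (R := ℝ) (φ := fun _ : Fin 4 => ℝ) i) q :=
    (ContinuousLinearMap.proj (R := ℝ) (φ := fun _ : Fin 4 => ℝ) i).hasFDerivAt
  have h2 : DifferentiableAt ℝ (fun q : E => f (pr q)) q := by
    have : ContDiff ℝ ∞ (fun q : E => f (pr q)) := hf.comp gleg_pr.contDiff
    exact (this.differentiable (by simp)).differentiableAt
  have h3 := h1.sub h2.hasFDerivAt
  rw [show (fun q : E => q i - f (pr q)) = (fun q : E => q i) - (fun q : E => f (pr q)) from rfl]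
  rw [h3.fderiv]
  rw [sub_apply, gleg_fderiv_comp f hf]
  rfl

lemma gleg_split (ψ : ℝ × ℝ → ℝ) (z : ℝ × ℝ) (a b : ℝ) :
    fderiv ℝ ψ z (a, b) = a * dX ψ z + b * dT ψ z := by
  have : ((a, b) : ℝ × ℝ) = a • ((1, 0) : ℝ × ℝ) + b • ((0, 1) : ℝ × ℝ) := by
    ext <;> simp
  rw [this, map_add, map_smul, map_smul]
  rfl

lemma gleg_mem (ψ : ℝ × ℝ → ℝ) (q : E) :
    q ∈ prj (Gr ψ) ↔ q 1 = dX ψ (pr q) ∧ q 3 = dT ψ (pr q) := by
  constructor
  · rintro ⟨v, h1, h2, -⟩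
    exact ⟨h1, h2⟩
  · rintro ⟨h1, h2⟩
    exact ⟨ψ (pr q), h1, h2, rfl⟩

theorem st_GLEG : ST_GLEG := by
  intro ψ hψ
  have hX : ContDiff ℝ ∞ (dX ψ) := gleg_dir ψ hψ (1, 0)
  have hT : ContDiff ℝ ∞ (dT ψ) := gleg_dir ψ hψ (0, 1)
  have hcX : Continuous (dX ψ) := hX.continuous
  have hcT : Continuous (dT ψ) := hT.continuous
  have hpr : Continuous pr := gleg_pr.continuous
  refine ⟨?_, ?_, ?_⟩
  · intro p
    refine ⟨univ, isOpen_univ, mem_univ _, fun q => q 1 - dX ψ (pr q), fun q => q 3 - dT ψ (pr q),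
      fun q => ψ (pr q), ?_, ?_, ?_, ?_, ?_, ?_, ?_⟩
    · exact ((contDiff_apply ℝ ℝ 1).sub (hX.comp gleg_pr.contDiff)).contDiffOn
    · exact ((contDiff_apply ℝ ℝ 3).sub (hT.comp gleg_pr.contDiff)).contDiffOn
    · exact (hψ.comp gleg_pr.contDiff).contDiffOn
    · intro q _ v
      constructor
      · rintro ⟨h1, h2, h3⟩
        exact ⟨sub_eq_zero.2 h1, sub_eq_zero.2 h2, h3⟩
      · rintro ⟨h1, h2, h3⟩
        exact ⟨sub_eq_zero.1 h1, sub_eq_zero.1 h2, h3⟩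
    · rw [LinearIndependent.pair_iff]
      intro s t hst
      have h1 := DFunLike.congr_fun hst (ev 1)
      have h3 := DFunLike.congr_fun hst (ev 3)
      simp only [add_apply, smul_apply,
        gleg_coord 1 _ hX, gleg_coord 3 _ hT, zero_apply] at h1 h3
      simp [ev, pr] at h1 h3
      have hz : ((0 : ℝ), (0 : ℝ)) = 0 := rfl
      simp [hz] at h1 h3
      exact ⟨h1, h3⟩
    · intro q _ _ _
      unfold br
      simp only [gleg_coord 1 _ hX, gleg_coord 3 _ hT]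
      have hsy : fderiv ℝ (dX ψ) (pr q) (0, 1) = fderiv ℝ (dT ψ) (pr q) (1, 0) :=
        gleg_symm ψ hψ (pr q) (0, 1) (1, 0)
      simp only [ev, pr, Pi.single_apply] at *
      simp
      have hz : ((0 : ℝ), (0 : ℝ)) = 0 := rfl
      simp only [hz, map_zero]
      linarith
    · intro q _ h1 h2 u
      rw [gleg_fderiv_comp ψ hψ]
      have h1' : q 1 = dX ψ (pr q) := sub_eq_zero.1 h1
      have h2' : q 3 = dT ψ (pr q) := sub_eq_zero.1 h2
      rw [show pr u = (u 0, u 2) from rfl, gleg_split, h1', h2']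
      ring
  · have : prj (Gr ψ) = {q : E | q 1 = dX ψ (pr q)} ∩ {q : E | q 3 = dT ψ (pr q)} := by
      ext q
      exact gleg_mem ψ q
    rw [this]
    exact (isClosed_eq (continuous_apply 1) (hcX.comp hpr)).inter
      (isClosed_eq (continuous_apply 3) (hcT.comp hpr))
  · intro K hK
    have : {q | q ∈ prj (Gr ψ) ∧ pr q ∈ K} =
        (fun z : ℝ × ℝ => (![z.1, dX ψ z, z.2, dT ψ z] : E)) '' K := by
      ext q
      constructor
      · rintro ⟨hq, hK⟩
        obtain ⟨h1, h2⟩ := (gleg_mem ψ q).1 hq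
        refine ⟨pr q, hK, ?_⟩
        ext i
        fin_cases i
        · rfl
        · exact h1.symm
        · rfl
        · exact h2.symm
      · rintro ⟨z, hz, rfl⟩
        refine ⟨(gleg_mem ψ _).2 ⟨rfl, rfl⟩, hz⟩
    rw [this]
    refine hK.image ?_
    refine continuous_pi fun i => ?_
    fin_cases i
    · exact continuous_fst
    · exact hcX
    · exact continuous_snd
    · exact hcT

end GW
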