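import Pool.Agent.Helper89.GW.Stmts

/-! # Module HAND: the handle is Lagrangian -/

set_option autoImplicit false

open scoped ContDiff Topology
open Set Filter

namespace GW

lemma hand_proj (i : Fin 4) (p : E) : HasFDerivAt (fun q : E => q i)
    (ContinuousLinearMap.proj (R := ℝ) (φ := fun _ : Fin 4 => ℝ) i) p :=
  (ContinuousLinearMap.proj (R := ℝ) (φ := fun _ : Fin 4 => ℝ) i).hasFDerivAt

lemma hand_d1 (p u : E) : fderiv ℝ (fun z : E => z 0 * z 3 - z 2 * z 1) p u =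
    p 3 * u 0 - p 2 * u 1 - p 1 * u 2 + p 0 * u 3 := by
  have h := ((hand_proj 0 p).mul (hand_proj 3 p)).sub ((hand_proj 2 p).mul (hand_proj 1 p))
  have h' : fderiv ℝ (fun z : E => z 0 * z 3 - z 2 * z 1) p = _ := h.fderiv
  rw [h']
  simp
  ring

lemma hand_d2 (cc : ℝ → ℝ) (hc : ContDiff ℝ ∞ cc) (p u : E) :
    fderiv ℝ (fun z : E => 2 * (z 0 * z 1 + z 2 * z 3) -
      cc (z 0 ^ 2 + z 2 ^ 2 - z 1 ^ 2 - z 3 ^ 2)) p u =
    2 * ((p 1 - deriv cc (p 0 ^ 2 + p 2 ^ 2 - p 1 ^ 2 - p 3 ^ 2) * p 0) * u 0 +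
      (p 0 + deriv cc (p 0 ^ 2 + p 2 ^ 2 - p 1 ^ 2 - p 3 ^ 2) * p 1) * u 1 +
      (p 3 - deriv cc (p 0 ^ 2 + p 2 ^ 2 - p 1 ^ 2 - p 3 ^ 2) * p 2) * u 2 +
      (p 2 + deriv cc (p 0 ^ 2 + p 2 ^ 2 - p 1 ^ 2 - p 3 ^ 2) * p 3) * u 3) := by
  have h1 := (((hand_proj 0 p).mul (hand_proj 1 p)).add
    ((hand_proj 2 p).mul (hand_proj 3 p))).const_mul 2
  have h2 := ((((hand_proj 0 p).pow 2).add ((hand_proj 2 p).pow 2)).sub
    ((hand_proj 1 p).pow 2)).sub ((hand_proj 3 p).pow 2)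
  have hd : HasDerivAt cc (deriv cc (p 0 ^ 2 + p 2 ^ 2 - p 1 ^ 2 - p 3 ^ 2))
      (p 0 ^ 2 + p 2 ^ 2 - p 1 ^ 2 - p 3 ^ 2) :=
    ((hc.differentiable (by simp)).differentiableAt).hasDerivAt
  have h3 := hd.comp_hasFDerivAt p h2
  have h4 := h1.sub h3
  have h' : fderiv ℝ (fun z : E => 2 * (z 0 * z 1 + z 2 * z 3) -
      cc (z 0 ^ 2 + z 2 ^ 2 - z 1 ^ 2 - z 3 ^ 2)) p = _ := h4.fderiv
  rw [h']
  simp
  ring

theorem st_HAND : ST_HAND := by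
  intro cc hc hc0 p hp
  have hA : ∀ i : Fin 4, ContDiff ℝ ∞ (fun q : E => q i) := fun i => contDiff_apply ℝ ℝ i
  refine ⟨univ, isOpen_univ, mem_univ _, fun z => z 0 * z 3 - z 2 * z 1,
    fun z => 2 * (z 0 * z 1 + z 2 * z 3) - cc (z 0 ^ 2 + z 2 ^ 2 - z 1 ^ 2 - z 3 ^ 2),
    ?_, ?_, ?_, ?_, ?_⟩
  · exact (((hA 0).mul (hA 3)).sub ((hA 2).mul (hA 1))).contDiffOn
  · exact ((contDiff_const.mul (((hA 0).mul (hA 1)).add ((hA 2).mul (hA 3)))).sub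
      (hc.comp (((((hA 0).pow 2).add ((hA 2).pow 2)).sub ((hA 1).pow 2)).sub
        ((hA 3).pow 2)))).contDiffOn
  · intro q _
    constructor
    · rintro ⟨h1, h2⟩
      exact ⟨h1, sub_eq_zero.2 h2⟩
    · rintro ⟨h1, h2⟩
      exact ⟨h1, sub_eq_zero.1 h2⟩
  · rw [LinearIndependent.pair_iff]
    intro s t hst
    have e : ∀ u : E, s * (p 3 * u 0 - p 2 * u 1 - p 1 * u 2 + p 0 * u 3) +
        t * (2 * ((p 1 - deriv cc (p 0 ^ 2 + p 2 ^ 2 - p 1 ^ 2 - p 3 ^ 2) * p 0) * u 0 +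
      (p 0 + deriv cc (p 0 ^ 2 + p 2 ^ 2 - p 1 ^ 2 - p 3 ^ 2) * p 1) * u 1 +
      (p 3 - deriv cc (p 0 ^ 2 + p 2 ^ 2 - p 1 ^ 2 - p 3 ^ 2) * p 2) * u 2 +
      (p 2 + deriv cc (p 0 ^ 2 + p 2 ^ 2 - p 1 ^ 2 - p 3 ^ 2) * p 3) * u 3)) = 0 := by
      intro u
      have := DFunLike.congr_fun hst u
      simp only [add_apply, smul_apply, zero_apply, hand_d1, hand_d2 cc hc, smul_eq_mul] at this
      exact this
    have hz : 0 < p 0 ^ 2 + p 1 ^ 2 + p 2 ^ 2 + p 3 ^ 2 := by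
      by_contra hcon
      have h0 : p 0 ^ 2 = 0 := by nlinarith [sq_nonneg (p 0), sq_nonneg (p 1), sq_nonneg (p 2), sq_nonneg (p 3)]
      have h1 : p 1 ^ 2 = 0 := by nlinarith [sq_nonneg (p 0), sq_nonneg (p 1), sq_nonneg (p 2), sq_nonneg (p 3)]
      have h2 : p 2 ^ 2 = 0 := by nlinarith [sq_nonneg (p 0), sq_nonneg (p 1), sq_nonneg (p 2), sq_nonneg (p 3)]
      have h3 : p 3 ^ 2 = 0 := by nlinarith [sq_nonneg (p 0), sq_nonneg (p 1), sq_nonneg (p 2), sq_nonneg (p 3)]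
      have h0' : p 0 = 0 := by simpa using h0
      have h2' : p 2 = 0 := by simpa using h2
      have := hp.2
      rw [h0, h1, h2, h3, h0', h2'] at this
      simp at this
      exact hc0 this.symm
    generalize deriv cc (p 0 ^ 2 + p 2 ^ 2 - p 1 ^ 2 - p 3 ^ 2) = k at e
    have e0 := e (ev 0)
    have e1 := e (ev 1)
    have e2 := e (ev 2)
    have e3 := e (ev 3)
    simp [ev] at e0 e1 e2 e3
    have hs : s * (p 0 ^ 2 + p 1 ^ 2 + p 2 ^ 2 + p 3 ^ 2) = 0 := by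
      linear_combination p 3 * e0 - p 2 * e1 - p 1 * e2 + p 0 * e3
    have hs0 : s = 0 := (mul_eq_zero.1 hs).resolve_right hz.ne'
    subst hs0
    have ht : t * (4 * (1 + k ^ 2) * (p 0 ^ 2 + p 1 ^ 2 + p 2 ^ 2 + p 3 ^ 2)) = 0 := by
      linear_combination (2 * (p 1 - k * p 0)) * e0 + (2 * (p 0 + k * p 1)) * e1 +
        (2 * (p 3 - k * p 2)) * e2 + (2 * (p 2 + k * p 3)) * e3
    have hk : 0 < 4 * (1 + k ^ 2) * (p 0 ^ 2 + p 1 ^ 2 + p 2 ^ 2 + p 3 ^ 2) := by positivity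
    exact ⟨rfl, (mul_eq_zero.1 ht).resolve_right hk.ne'⟩
  · intro q _ _ _
    unfold br
    simp only [hand_d1, hand_d2 cc hc]
    simp [ev]
    ring

end GW
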